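import Pool.Agent.H88.MC.Targets

/-!
AC: anti-concentration of sums of signs over random subsets.
-/

namespace Pool.Agent.H91.E0

open Finset Pool.Agent.H88.MC

theorem cb_bound (l : ℕ) : (Nat.centralBinom l) ^ 2 * (2 * l + 1) ≤ 16 ^ l := by
  induction l with
  | zero => simp
  | succ l ih =>
    have h1 := Nat.succ_mul_centralBinom_succ l
    have h2 : ((l + 1) * Nat.centralBinom (l + 1)) ^ 2 * (2 * (l + 1) + 1) ≤
        (l + 1) ^ 2 * 16 ^ (l + 1) := by
      rw [h1]
      calc (2 * (2 * l + 1) * Nat.centralBinom l) ^ 2 * (2 * (l + 1) + 1)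
          = 4 * ((2 * l + 1) * (2 * l + 3)) * (Nat.centralBinom l ^ 2 * (2 * l + 1)) := by ring
        _ ≤ 4 * (4 * (l + 1) ^ 2) * 16 ^ l := by
            refine Nat.mul_le_mul ?_ ih
            nlinarith
        _ = (l + 1) ^ 2 * 16 ^ (l + 1) := by ring
    have h3 : (l + 1) ^ 2 * (Nat.centralBinom (l + 1) ^ 2 * (2 * (l + 1) + 1)) ≤
        (l + 1) ^ 2 * 16 ^ (l + 1) := by
      calc _ = ((l + 1) * Nat.centralBinom (l + 1)) ^ 2 * (2 * (l + 1) + 1) := by ring
        _ ≤ _ := h2
    exact Nat.le_of_mul_le_mul_left h3 (by positivity)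

theorem choose_half_sq (m : ℕ) : (m.choose (m / 2)) ^ 2 * (m + 1) ≤ (2 ^ m) ^ 2 := by
  rcases Nat.even_or_odd' m with ⟨l, rfl | rfl⟩
  · have h := cb_bound l
    rw [Nat.centralBinom_eq_two_mul_choose] at h
    rw [show 2 * l / 2 = l by omega]
    calc (2 * l).choose l ^ 2 * (2 * l + 1) ≤ 16 ^ l := h
      _ = (2 ^ (2 * l)) ^ 2 := by
          rw [← pow_mul, show (16 : ℕ) = 2 ^ 4 by norm_num, ← pow_mul]
          congr 1
          ring
  · have h := cb_bound (l + 1)
    have h1 : Nat.centralBinom (l + 1) = 2 * (2 * l + 1).choose l := by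
      rw [Nat.centralBinom_eq_two_mul_choose, show 2 * (l + 1) = (2 * l + 1) + 1 by ring,
        Nat.choose_succ_succ]
      have : (2 * l + 1).choose (l + 1) = (2 * l + 1).choose l := by
        rw [← Nat.choose_symm_of_eq_add (a := l) (b := l + 1) (by ring)]
      rw [this]
      ring
    rw [h1] at h
    rw [show (2 * l + 1) / 2 = l by omega]
    have h2 : 4 * ((2 * l + 1).choose l ^ 2 * (2 * l + 1 + 1)) ≤ 4 * (2 ^ (2 * l + 1)) ^ 2 := by
      calc 4 * ((2 * l + 1).choose l ^ 2 * (2 * l + 1 + 1))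
          ≤ 4 * ((2 * l + 1).choose l ^ 2 * (2 * (l + 1) + 1)) := by
            refine Nat.mul_le_mul_left _ (Nat.mul_le_mul_left _ ?_)
            omega
        _ = (2 * (2 * l + 1).choose l) ^ 2 * (2 * (l + 1) + 1) := by ring
        _ ≤ 16 ^ (l + 1) := h
        _ = 4 * (2 ^ (2 * l + 1)) ^ 2 := by
            rw [← pow_mul, show (16 : ℕ) = 2 ^ 4 by norm_num, ← pow_mul,
              show (4 : ℕ) = 2 ^ 2 by norm_num, ← pow_add]
            congr 1
            ring
    exact Nat.le_of_mul_le_mul_left h2 (by norm_num)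

theorem choose_half (m : ℕ) : ((m.choose (m / 2) : ℕ) : ℝ) ≤ 2 ^ m / Real.sqrt (m + 1) := by
  have h : ((m.choose (m / 2) : ℕ) : ℝ) ^ 2 * (m + 1) ≤ (2 ^ m) ^ 2 := by
    exact_mod_cast choose_half_sq m
  have hm : (0 : ℝ) < m + 1 := by positivity
  have hs : 0 < Real.sqrt (m + 1) := Real.sqrt_pos.2 hm
  rw [le_div_iff₀ hs]
  refine le_of_sq_le_sq ?_ (by positivity)
  rw [mul_pow, Real.sq_sqrt hm.le]
  exact h

/-- the number of subsets of `S` with a given sum of signs -/
theorem level_card {n : ℕ} (S : Finset (Fin n)) (y : Fin n → Bool) (s : ℤ) :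
    #{A ∈ S.powerset | ∑ u ∈ A, sg (y u) = s} ≤ (#S).choose (#S / 2) := by
  classical
  set N : Finset (Fin n) := S.filter fun u => y u = false with hN
  have key : ∀ A ⊆ S, ((#(symmDiff A N) : ℕ) : ℤ) = ∑ u ∈ A, sg (y u) + #N := by
    intro A hA
    have h1 : #(symmDiff A N) = #(A \ N) + #(N \ A) := by
      rw [symmDiff_def, Finset.sup_eq_union, Finset.card_union_of_disjoint]
      exact Finset.disjoint_left.2 fun u hu hu2 =>
        (Finset.mem_sdiff.1 hu).2 (Finset.mem_sdiff.1 hu2).1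
    have h2 : A \ N = A.filter fun u => y u = true := by
      ext u
      simp only [hN, Finset.mem_sdiff, Finset.mem_filter, not_and, Bool.not_eq_false]
      constructor
      · rintro ⟨ha, hb⟩
        exact ⟨ha, hb (hA ha)⟩
      · rintro ⟨ha, hb⟩
        exact ⟨ha, fun _ => hb⟩
    have h3 : #(N \ A) + #(A.filter fun u => y u = false) = #N := by
      have h4 : (A.filter fun u => y u = false) = N ∩ A := by
        ext u
        simp only [hN, Finset.mem_inter, Finset.mem_filter]
        constructor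
        · rintro ⟨ha, hb⟩
          exact ⟨⟨hA ha, hb⟩, ha⟩
        · rintro ⟨⟨-, hb⟩, ha⟩
          exact ⟨ha, hb⟩
      rw [h4]
      exact Finset.card_sdiff_add_card_inter N A
    have h5 : ∑ u ∈ A, sg (y u) = (#(A.filter fun u => y u = true) : ℤ) -
        #(A.filter fun u => y u = false) := by
      have h6 : ∀ u, sg (y u) = (if y u = true then (1 : ℤ) else 0) -
          (if y u = false then (1 : ℤ) else 0) := by
        intro u
        cases y u <;> simp [sg]
      rw [Finset.sum_congr rfl fun u _ => h6 u, Finset.sum_sub_distrib, Finset.sum_boole,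
        Finset.sum_boole]
    rw [h1, h2, h5]
    have h7 : ((#(N \ A) : ℕ) : ℤ) + #(A.filter fun u => y u = false) = #N := by
      exact_mod_cast h3
    push_cast
    linarith
  have hinj : #{A ∈ S.powerset | ∑ u ∈ A, sg (y u) = s} ≤
      #(Finset.powersetCard (s + #N).toNat S) := by
    refine Finset.card_le_card_of_injOn (fun A => symmDiff A N) ?_ ?_
    · intro A hA
      have hA' := Finset.mem_filter.1 (Finset.mem_coe.1 hA)
      have hAS := Finset.mem_powerset.1 hA'.1
      refine Finset.mem_coe.2 (Finset.mem_powersetCard.2 ⟨?_, ?_⟩)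
      · intro u hu
        rcases Finset.mem_symmDiff.1 hu with h | h
        · exact hAS h.1
        · exact (Finset.mem_filter.1 h.1).1
      · have h8 := key A hAS
        rw [hA'.2] at h8
        have h9 : (((#(symmDiff A N) : ℕ) : ℤ)).toNat = (s + #N).toNat := by rw [h8]
        simpa using h9
    · intro A _ B _ hAB
      exact symmDiff_left_injective N hAB
  refine hinj.trans ?_
  rw [Finset.card_powersetCard]
  exact Nat.choose_le_middle _ _

theorem pf_ac : T_AC := by
  intro n S y x r hr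
  classical
  set I : Finset ℤ := Finset.Icc ⌈-r - x⌉ ⌊r - x⌋ with hI
  have hsub : ({A ∈ S.powerset | |(x : ℝ) + ∑ u ∈ A, sgr y u| ≤ r} : Finset (Finset (Fin n))) ⊆
      I.biUnion fun s => {A ∈ S.powerset | ∑ u ∈ A, sg (y u) = s} := by
    intro A hA
    obtain ⟨hA1, hA2⟩ := Finset.mem_filter.1 hA
    have h1 : (∑ u ∈ A, sgr y u) = ((∑ u ∈ A, sg (y u) : ℤ) : ℝ) := by
      push_cast
      refine Finset.sum_congr rfl fun u _ => ?_
      unfold sgr sg
      cases y u <;> simp
    rw [h1, abs_le] at hA2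
    refine Finset.mem_biUnion.2 ⟨∑ u ∈ A, sg (y u), ?_, Finset.mem_filter.2 ⟨hA1, rfl⟩⟩
    rw [hI, Finset.mem_Icc, Int.ceil_le, Int.le_floor]
    constructor <;> linarith [hA2.1, hA2.2]
  have hcard : (#I : ℝ) ≤ 2 * r + 1 := by
    rw [hI, Int.card_Icc]
    have h1 : (⌊r - x⌋ : ℝ) ≤ r - x := Int.floor_le _
    have h2 : (-r - x : ℝ) ≤ ⌈-r - x⌉ := Int.le_ceil _
    rcases le_total 0 (⌊r - x⌋ + 1 - ⌈-r - x⌉) with h | h
    · have h3 : (((⌊r - x⌋ + 1 - ⌈-r - x⌉).toNat : ℕ) : ℝ) = ((⌊r - x⌋ + 1 - ⌈-r - x⌉ : ℤ) : ℝ) := by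
        exact_mod_cast Int.toNat_of_nonneg h
      rw [h3]
      push_cast
      linarith
    · rw [Int.toNat_of_nonpos h]
      push_cast
      linarith
  have h1 : #({A ∈ S.powerset | |(x : ℝ) + ∑ u ∈ A, sgr y u| ≤ r} : Finset (Finset (Fin n))) ≤
      #I * (#S).choose (#S / 2) := by
    refine (Finset.card_le_card hsub).trans ?_
    refine Finset.card_biUnion_le.trans ?_
    refine (Finset.sum_le_sum fun s _ => level_card S y s).trans ?_
    rw [Finset.sum_const, smul_eq_mul]
  calc (#({A ∈ S.powerset | |(x : ℝ) + ∑ u ∈ A, sgr y u| ≤ r} : Finset (Finset (Fin n))) : ℝ)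
      ≤ ((#I * (#S).choose (#S / 2) : ℕ) : ℝ) := by exact_mod_cast h1
    _ = #I * ((#S).choose (#S / 2) : ℕ) := by push_cast; ring
    _ ≤ (2 * r + 1) * (2 ^ #S / Real.sqrt (#S + 1)) :=
        mul_le_mul hcard (choose_half #S) (by positivity) (by positivity)
    _ = (2 * r + 1) * 2 ^ #S / Real.sqrt (#S + 1) := by ring

end Pool.Agent.H91.E0
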