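import Pool.Agent.H88.MC.Targets

/-!
PA: a good hidden set and a bipartition give a path in the search tree.
-/

namespace Pool.Agent.H91.E0

open Finset Pool.Agent.H88.MC

/-- the string with the bits `f 0, f 1, …` (reversed list) -/
def tt (f : ℕ → ℕ) (j : ℕ) : List ℕ := ((List.range j).map f).reverse

theorem tt_length (f : ℕ → ℕ) (j : ℕ) : (tt f j).length = j := by simp [tt]

theorem tt_succ (f : ℕ → ℕ) (j : ℕ) : tt f (j + 1) = f j :: tt f j := by
  simp [tt, List.range_succ]

theorem bt_tt (f : ℕ → ℕ) (j l : ℕ) : bt (tt f j) l = if l < j then f l else 0 := by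
  unfold bt
  rw [tt_length]
  by_cases h : l < j
  · rw [if_pos h, if_pos h]
    have h1 : j - 1 - l < (tt f j).length := by
      rw [tt_length]
      omega
    rw [List.getD_eq_getElem _ _ h1]
    simp only [tt, List.getElem_reverse, List.getElem_map, List.getElem_range, List.length_map,
      List.length_range]
    congr 1
    omega
  · rw [if_neg h, if_neg h]

theorem tt_drop (f : ℕ → ℕ) (j i : ℕ) (h : i ≤ j) : (tt f j).drop i = tt f (j - i) := by
  induction i with
  | zero => rfl
  | succ i ih =>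
    have h1 : (tt f j).drop (i + 1) = ((tt f j).drop i).drop 1 := by
      rw [List.drop_drop]
    rw [h1, ih (by omega), show j - i = (j - (i + 1)) + 1 by omega, tt_succ]
    rfl

theorem tt_bits (f : ℕ → ℕ) (hf : ∀ l, f l = 0 ∨ f l = 1) (j : ℕ) : tt f j ∈ bits j := by
  induction j with
  | zero => simp [tt, bits]
  | succ j ih =>
    rw [tt_succ]
    unfold bits
    rw [Finset.mem_union, Finset.mem_image, Finset.mem_image]
    rcases hf j with h | h
    · exact Or.inl ⟨_, ih, by rw [h]⟩
    · exact Or.inr ⟨_, ih, by rw [h]⟩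

/-- the four numbers -/
def cc (q a b e : ℕ) : ℕ → ℕ
  | 0 => q
  | 1 => a
  | 2 => b
  | _ => e

open scoped Classical in
/-- the bits -/
noncomputable def ff (n q a b e : ℕ) (U : Finset (Fin n)) (y : Fin n → Bool) (l : ℕ) : ℕ :=
  if l < 8 * n then (if l % (2 * n) < cc q a b e (l / (2 * n)) then 1 else 0)
  else if l < 9 * n then
    (if ∃ h : l - 8 * n < n, y ⟨l - 8 * n, h⟩ = true ∧ (⟨l - 8 * n, h⟩ : Fin n) ∉ U then 1 else 0)
  else (if ∃ h : l - 9 * n < n, y ⟨l - 9 * n, h⟩ = true ∧ (⟨l - 9 * n, h⟩ : Fin n) ∈ U then 1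
    else 0)

theorem ff_bit (n q a b e : ℕ) (U : Finset (Fin n)) (y : Fin n → Bool) (l : ℕ) :
    ff n q a b e U y l = 0 ∨ ff n q a b e U y l = 1 := by
  unfold ff
  split_ifs <;> simp

theorem ff_block (n q a b e : ℕ) (U : Finset (Fin n)) (y : Fin n → Bool) (r i : ℕ) (hr : r < 4)
    (hi : i < 2 * n) :
    ff n q a b e U y (2 * n * r + i) = if i < cc q a b e r then 1 else 0 := by
  have h1 : 2 * n * r + i < 8 * n := by
    have : 2 * n * r ≤ 2 * n * 3 := Nat.mul_le_mul_left _ (by omega)
    omega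
  have h2 : (2 * n * r + i) % (2 * n) = i := by
    rw [Nat.mul_add_mod, Nat.mod_eq_of_lt hi]
  have h3 : (2 * n * r + i) / (2 * n) = r := by
    rw [Nat.mul_add_div (by omega), Nat.div_eq_of_lt hi, add_zero]
  unfold ff
  rw [if_pos h1, h2, h3]

open scoped Classical in
theorem ff_xi (n q a b e : ℕ) (U : Finset (Fin n)) (y : Fin n → Bool) (v : Fin n) :
    ff n q a b e U y (8 * n + v) = if y v = true ∧ v ∉ U then 1 else 0 := by
  unfold ff
  have hv := v.2
  rw [if_neg (by omega), if_pos (by omega)]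
  have h : (∃ h : 8 * n + (v : ℕ) - 8 * n < n, y ⟨8 * n + (v : ℕ) - 8 * n, h⟩ = true ∧
      (⟨8 * n + (v : ℕ) - 8 * n, h⟩ : Fin n) ∉ U) ↔ (y v = true ∧ v ∉ U) := by
    have e1 : 8 * n + (v : ℕ) - 8 * n = v := by omega
    have e2 : ∀ h : 8 * n + (v : ℕ) - 8 * n < n, (⟨8 * n + (v : ℕ) - 8 * n, h⟩ : Fin n) = v :=
      fun h => Fin.ext e1
    constructor
    · rintro ⟨h, h1⟩
      rwa [e2 h] at h1
    · intro h1
      have h : 8 * n + (v : ℕ) - 8 * n < n := by omega
      refine ⟨h, ?_⟩
      rwa [e2 h]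
  by_cases h1 : y v = true ∧ v ∉ U
  · rw [if_pos h1, if_pos (h.2 h1)]
  · rw [if_neg h1, if_neg (fun h2 => h1 (h.1 h2))]

open scoped Classical in
theorem ff_up (n q a b e : ℕ) (U : Finset (Fin n)) (y : Fin n → Bool) (v : Fin n) :
    ff n q a b e U y (9 * n + v) = if y v = true ∧ v ∈ U then 1 else 0 := by
  unfold ff
  have hv := v.2
  rw [if_neg (by omega), if_neg (by omega)]
  have h : (∃ h : 9 * n + (v : ℕ) - 9 * n < n, y ⟨9 * n + (v : ℕ) - 9 * n, h⟩ = true ∧
      (⟨9 * n + (v : ℕ) - 9 * n, h⟩ : Fin n) ∈ U) ↔ (y v = true ∧ v ∈ U) := by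
    have e1 : 9 * n + (v : ℕ) - 9 * n = v := by omega
    have e2 : ∀ h : 9 * n + (v : ℕ) - 9 * n < n, (⟨9 * n + (v : ℕ) - 9 * n, h⟩ : Fin n) = v :=
      fun h => Fin.ext e1
    constructor
    · rintro ⟨h, h1⟩
      rwa [e2 h] at h1
    · intro h1
      have h : 9 * n + (v : ℕ) - 9 * n < n := by omega
      refine ⟨h, ?_⟩
      rwa [e2 h]
  by_cases h1 : y v = true ∧ v ∈ U
  · rw [if_pos h1, if_pos (h.2 h1)]
  · rw [if_neg h1, if_neg (fun h2 => h1 (h.1 h2))]

theorem pat_tt (n q a b e : ℕ) (U : Finset (Fin n)) (y : Fin n → Bool) (j : ℕ) :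
    Pat n (tt (ff n q a b e U y) j) := by
  intro r hr i hi
  rw [bt_tt, bt_tt]
  by_cases h : 2 * n * r + i + 1 < j
  · rw [if_pos h, if_pos (by omega), show 2 * n * r + i + 1 = 2 * n * r + (i + 1) by ring,
      ff_block _ _ _ _ _ _ _ r (i + 1) hr hi, ff_block _ _ _ _ _ _ _ r i hr (by omega)]
    split_ifs with h1 h2
    · exact le_rfl
    · omega
    · omega
    · exact le_rfl
  · rw [if_neg h]
    exact Nat.zero_le _

theorem qv_tt (n q a b e : ℕ) (U : Finset (Fin n)) (y : Fin n → Bool) (j r : ℕ) (hr : r < 4)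
    (hj : 8 * n ≤ j) (hc : cc q a b e r ≤ 2 * n) :
    qv n (tt (ff n q a b e U y) j) r = cc q a b e r := by
  unfold qv
  have h1 : ∀ i ∈ range (2 * n), bt (tt (ff n q a b e U y) j) (2 * n * r + i) =
      if i < cc q a b e r then 1 else 0 := by
    intro i hi
    have hi' := Finset.mem_range.1 hi
    have h2 : 2 * n * r + i < 8 * n := by
      have : 2 * n * r ≤ 2 * n * 3 := Nat.mul_le_mul_left _ (by omega)
      omega
    rw [bt_tt, if_pos (by omega), ff_block _ _ _ _ _ _ _ r i hr hi']
  rw [Finset.sum_congr rfl h1, ← Finset.card_filter]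
  have h3 : (range (2 * n)).filter (fun i => i < cc q a b e r) = range (cc q a b e r) := by
    ext i
    simp only [Finset.mem_filter, Finset.mem_range]
    omega
  rw [h3, Finset.card_range]

theorem pf_pa : T_PA := by
  classical
  intro n k D n0 q a b e G y hn hq ha hb he hU hthin hlast
  set U := hset n D q a b e with hUdef
  set f := ff n q a b e U y with hf
  have hbits : tt f (10 * n) ∈ bits (10 * n) := tt_bits f (ff_bit n q a b e U y) _
  have hUS : ∀ j, 8 * n ≤ j → US n D (tt f j) = U := by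
    intro j hj
    unfold US
    rw [hf, qv_tt n q a b e U y j 0 (by norm_num) hj hq, qv_tt n q a b e U y j 1 (by norm_num) hj ha,
      qv_tt n q a b e U y j 2 (by norm_num) hj hb, qv_tt n q a b e U y j 3 (by norm_num) hj he]
    rfl
  have hxi : ∀ j (v : Fin n), xi n (tt f j) v = decide (8 * n + (v : ℕ) < j ∧ y v = true ∧ v ∉ U) := by
    intro j v
    unfold xi
    rw [bt_tt, hf, ff_xi]
    congr 1
    refine propext ?_
    split_ifs with h1 h2
    · exact ⟨fun _ => ⟨h1, h2⟩, fun _ => le_rfl⟩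
    · exact ⟨fun h => absurd h (by norm_num), fun h => absurd h.2 h2⟩
    · exact ⟨fun h => absurd h (by norm_num), fun h => absurd h.1 h1⟩
  have hup : ∀ j (v : Fin n), up n (tt f j) v = decide (9 * n + (v : ℕ) < j ∧ y v = true ∧ v ∈ U) := by
    intro j v
    unfold up
    rw [bt_tt, hf, ff_up]
    congr 1
    refine propext ?_
    split_ifs with h1 h2
    · exact ⟨fun _ => ⟨h1, h2⟩, fun _ => le_rfl⟩
    · exact ⟨fun h => absurd h (by norm_num), fun h => absurd h.2 h2⟩
    · exact ⟨fun h => absurd h (by norm_num), fun h => absurd h.1 h1⟩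
  refine ⟨tt f (10 * n), hbits, ?_, ?_⟩
  · intro i hi
    rw [tt_drop f _ _ hi]
    obtain ⟨j, hj⟩ : ∃ j, 10 * n - i = j := ⟨_, rfl⟩
    rw [hj]
    refine Or.inr ⟨pat_tt n q a b e U y j, ?_, ?_⟩
    · rw [tt_length]
      intro h8
      rw [hUS j h8.le]
      refine ⟨hU, hthin, fun v hv => ?_⟩
      rw [hxi, decide_eq_false_iff_not]
      rintro ⟨-, -, h⟩
      exact h hv
    · rw [tt_length]
      intro h9
      rw [hUS j (by omega)]
      refine ⟨fun v hv => ?_, ?_⟩
      · rw [hup, decide_eq_false_iff_not]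
        rintro ⟨-, -, h⟩
        exact hv h
      · have hx : ∀ v, v ∉ U → xi n (tt f j) v = y v := by
          intro v hv
          rw [hxi]
          have hv2 := v.2
          cases hy : y v
          · rw [decide_eq_false_iff_not]
            rintro ⟨-, h, -⟩
            exact absurd h (by simp)
          · rw [decide_eq_true_iff]
            exact ⟨by omega, rfl, hv⟩
        rcases hlast (xi n (tt f j)) y hx (fun v _ => rfl) with h | h
        · left
          refine ⟨h.1, le_trans (Nat.mul_le_mul_left _ ?_) h.2⟩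
          unfold er
          refine Finset.card_le_card fun v hv => ?_
          obtain ⟨h1, h2, h3⟩ := Finset.mem_filter.1 hv
          refine Finset.mem_filter.2 ⟨h1, v.2, ?_⟩
          have hvU : v ∈ U := by
            unfold PP at h1
            exact (Finset.mem_filter.1 h1).1
          have h4 : up n (tt f j) v = y v := by
            rw [hup]
            cases hy : y v
            · rw [decide_eq_false_iff_not]
              rintro ⟨-, h, -⟩
              exact absurd h (by simp)
            · rw [decide_eq_true_iff]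
              exact ⟨by omega, rfl, hvU⟩
          rw [h4] at h3
          exact h3
        · exact Or.inr h
  · funext v
    unfold yy
    have hv2 := v.2
    rw [bt_tt, bt_tt, if_pos (by omega), if_pos (by omega), hf, ff_xi, ff_up]
    by_cases hvU : v ∈ U
    · cases hy : y v <;> simp [hvU]
    · cases hy : y v <;> simp [hvU]

end Pool.Agent.H91.E0
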